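import Pool.Agent.H923_Thick.Main

/-!
# MP_75c93e_co, Q1: the thickened plane has chromatic number seven

There is `k` such that `ℝ² × [0, ε]^k` has chromatic number `7` for all small `ε > 0`.
-/

namespace Pool.Agent.Results.MP_75c93e_co.ThickIsSeven

open Pool.Agent.H923_Thick

/-- There is `k ≥ 1` with `chi (thickPlane k ε) = 7` for all sufficiently small `ε > 0`. -/
theorem result : ∃ k : ℕ, 1 ≤ k ∧ ∃ ε₀ : ℝ, 0 < ε₀ ∧ ∀ ε : ℝ, 0 < ε → ε < ε₀ → chi (thickPlane k ε) = 7 :=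
  exists_chi_eq_seven

end Pool.Agent.Results.MP_75c93e_co.ThickIsSeven
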